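import Pool.Agent.Lib.MP_1301ff_gt.T11

set_option autoImplicit false

namespace Pool.Agent.Results.MP_1301ff_gt.NotDiscrete

open scoped ContDiff Manifold
open Pool.Agent.Lib.MP_1301ff_gt Real

/-- There is a closed connected manifold whose set of normalized Einstein constants contains one
of its own accumulation points. The example is `(S³ × S²)³`. -/
theorem result :
    ∃ (n : ℕ) (M : Type) (_ : TopologicalSpace M) (_ : ChartedSpace (Fin n → ℝ) M)
      (_ : IsManifold 𝓘(ℝ, Fin n → ℝ) ∞ M) (_ : MeasurableSpace M) (_ : BorelSpace M),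
      2 ≤ n ∧ T2Space M ∧ CompactSpace M ∧ ConnectedSpace M ∧
      ∃ a ∈ einsteinConstants n M, ∀ ε > 0, ∃ b ∈ einsteinConstants n M, b ≠ a ∧ |b - a| < ε := by
  let X := (M5.prod M5).prod M5
  let _ : MeasurableSpace X.M := borel _
  have : BorelSpace X.M := ⟨rfl⟩
  have hc := cV_pos
  let f : ℝ → ℝ := fun I => 4 * (cV * I * (cV * I) * (cV * I)) ^
    ((2 : ℝ) / ((3 + 2 + (3 + 2) + (3 + 2) : ℕ) : ℝ))
  have hf : Continuous f := continuous_const.mul (Continuous.rpow_const (by fun_prop)
    fun _ => Or.inr (by positivity))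
  have ha := ((t11_edata.prod product_edata).prod product_edata).mem
  rw [show cV * (2 / 27 * (π / 2)) * (cV * (√2 / 16 * (π / 2))) * (cV * (√2 / 16 * (π / 2))) =
    cV * (π / 24) * (cV * (π / 24)) * (cV * (π / 24)) by
      linear_combination cV ^ 3 * π ^ 3 / 27648 * sq_sqrt (zero_le_two (α := ℝ))] at ha
  refine ⟨_, X.M, inferInstance, inferInstance, inferInstance, inferInstance, inferInstance,
    by norm_num, inferInstance, inferInstance, inferInstance, f (π / 24), ha, fun ε hε => ?_⟩
  obtain ⟨γ, hγ, h⟩ := Metric.continuous_iff.1 hf (π / 24) ε hε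
  obtain ⟨F, K, A, B, hP, h1, h2⟩ := bohm hγ
  refine ⟨f _, ((hP.edata.prod hP.edata).prod hP.edata).mem, ne_of_gt ?_,
    h _ (abs_lt.2 ⟨by linarith, by linarith⟩)⟩
  have hπ : 0 < π / 24 := by positivity
  have hI := hπ.trans h1
  refine mul_lt_mul_of_pos_left (rpow_lt_rpow (by positivity) ?_ (by positivity)) four_pos
  gcongr

end Pool.Agent.Results.MP_1301ff_gt.NotDiscrete
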